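import Pool.Agent.Helper68.SG2.GoalsC
import Pool.Agent.Helper78.SGC1.PRNC

/-!
# Project SG stage 2 (MP_a41896_nt): packet PRNT (an inequality between real numbers)
-/

set_option autoImplicit false

open MvPolynomial

namespace Pool.Agent.Helper22.SG2

open WeierstrassCurve Height
open Pool.Agent.Helper29.BL Pool.Agent.Helper92.Ru Pool.Agent.Helper42.SG
open Pool.Agent.Helper76.SGC (hz ho)
open Pool.Agent.Helper77.SGC (N0)
open Pool.Agent.Helper68.SG2

noncomputable section

/-- one variable -/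
theorem prnt_one (T : ℕ → Bool) (n M : ℕ) (e : ℕ → ℕ) (a G L : ℕ → ℝ) (b : ℝ) (h : ℕ) (μ : Fin 2)
    (i : ℕ) (hM : 1 ≤ M) (ha : 1 ≤ a h) (ha0 : 1 ≤ a (2 * n + h % 2)) (hG : 1 ≤ G h)
    (hL : T (h % 2) = true → 1 ≤ L h) (hb : 1 ≤ b)
    (hN : T (h % 2) = false → i + 2 * μ.val ≤ N0 M (e (h / 2)))
    (hN' : T (h % 2) = true → i ≤ 4 ^ e (h / 2) * (M + 1)) :
    0 ≤ basB T n a G b h μ i * RfB T n M e a L h μ i ∧ 0 ≤ cost T n M e a L h ∧
    1 ≤ gn T a G h ∧ ∃ x : ℝ, 0 ≤ x ∧ x ^ 2 * gn T a G h ^ drop (T (h % 2)) M (e (h / 2)) μ i = 1 ∧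
      basB T n a G b h μ i * RfB T n M e a L h μ i ≤
        b ^ (4 ^ e (h / 2) * (M + 3)) * (cost T n M e a L h * x) := by
  have a0 : 0 < a h := lt_of_lt_of_le one_pos ha
  have G0 : 0 < G h := lt_of_lt_of_le one_pos hG
  have b0 : 0 < b := lt_of_lt_of_le one_pos hb
  have r0 : 0 < a (2 * n + h % 2) := lt_of_lt_of_le one_pos ha0
  have hq : 1 ≤ 4 ^ e (h / 2) := Nat.one_le_pow _ _ (by norm_num)
  unfold basB RfB cost gn drop
  cases hT : T (h % 2) with
  | true =>
    have L0 : 0 < L h := lt_of_lt_of_le one_pos (hL hT)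
    have hi := hN' hT
    simp only [if_true]
    refine ⟨by positivity, by positivity, one_le_pow₀ hG, 1 / G h ^ i, by positivity, ?_, ?_⟩
    · rw [← pow_mul, mul_comm 2 i, pow_mul, div_pow, one_pow, one_div,
        inv_mul_cancel₀ (by positivity)]
    · have e1 : (b * a h / G h) ^ i * (a h ^ (4 ^ e (h / 2) - 1) * L h ^ M / a h ^ i) =
          b ^ i * (a h ^ (4 ^ e (h / 2) - 1) * L h ^ M * (1 / G h ^ i)) := by
        rw [div_pow, mul_pow]
        field_simp
      rw [e1]
      apply mul_le_mul_of_nonneg_right _ (by positivity)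
      apply pow_le_pow_right₀ hb
      calc i ≤ 4 ^ e (h / 2) * (M + 1) := hi
        _ ≤ 4 ^ e (h / 2) * (M + 3) := Nat.mul_le_mul_left _ (by omega)
  | false =>
    have hi := hN hT
    simp only [if_false, Bool.false_eq_true]
    refine ⟨by positivity, by positivity, ha, 1 / a h ^ (N0 M (e (h / 2)) - (i + 2 * μ.val)),
      by positivity, ?_, ?_⟩
    · have e0 : a h ^ (2 * (N0 M (e (h / 2)) - (i + 2 * μ.val))) =
          (a h ^ (N0 M (e (h / 2)) - (i + 2 * μ.val))) ^ 2 := by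
        rw [← pow_mul]
        congr 1
        ring
      rw [e0, div_pow, one_pow, one_div, inv_mul_cancel₀ (by positivity)]
    · have k1 := Pool.Agent.Helper78.SGC1.prn_one (a h) (a (2 * n + h % 2)) b M i μ hb ha ha0 hM
      refine le_trans k1 ?_
      have e1 : a h ^ (2 * 4 ^ e (h / 2) * M + 4 ^ e (h / 2)) =
          a h ^ (i + 2 * μ.val) * a h ^ (N0 M (e (h / 2)) - (i + 2 * μ.val)) := by
        rw [← pow_add]
        congr 1
        have : N0 M (e (h / 2)) = 2 * 4 ^ e (h / 2) * M + 4 ^ e (h / 2) := rfl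
        omega
      have e2 : a h ^ (2 * 4 ^ e (h / 2) * M + 4 ^ e (h / 2)) * a (2 * n + h % 2) ^ (2 * M) *
          (1 / a h ^ (N0 M (e (h / 2)) - (i + 2 * μ.val))) =
          a h ^ (i + 2 * μ.val) * a (2 * n + h % 2) ^ (2 * M) := by
        rw [e1]
        field_simp
      rw [e2]
      apply mul_le_mul_of_nonneg_right _ (by positivity)
      apply pow_le_pow_right₀ hb
      calc 2 ≤ 1 * (M + 3) := by omega
        _ ≤ 4 ^ e (h / 2) * (M + 3) := Nat.mul_le_mul_right _ hq

/-- **PRNT** -/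
theorem t_PRNT (h1 : Pool.Agent.Helper68.SG2.MONT) : Pool.Agent.Helper68.SG2.PRNT := by
  intro T n M k0 e a G L b μ i hn hM ha hG hL hb hN hN' hF
  rw [← Finset.prod_mul_distrib]
  have eb : b ^ (2 * (M + 3) * sq n e) = ∏ j : Fin n, b ^ (2 * (4 ^ e j.val * (M + 3))) := by
    rw [Finset.prod_pow_eq_pow_sum]
    congr 1
    unfold Pool.Agent.Helper42.SG.sq
    rw [← Fin.sum_univ_eq_sum_range (fun j => 4 ^ e j) n, Finset.mul_sum]
    apply Finset.sum_congr rfl
    intro j _
    ring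
  rw [eb, ← Fin.prod_univ_eq_prod_range (fun j =>
    cost T n M e a L (2 * j) * cost T n M e a L (2 * j + 1) /
          (min (gn T a G (2 * j)) (gn T a G (2 * j + 1))) ^ (k0 * 4 ^ e j)) n,
    ← Finset.prod_mul_distrib]
  rw [Pool.Agent.Helper78.SGC1.prod_fin_pairs]
  have hone : ∀ h : Fin (2 * n), _ := fun h =>
    prnt_one T n M e a G L b h.val (μ h) (i h) hM (ha _ (by have := h.isLt; omega))
      (ha _ (by omega)) (hG _ h.isLt) (hL _ h.isLt) hb (hN h) (hN' h)
  apply Finset.prod_le_prod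
  · intro j _
    exact mul_nonneg (hone (hz j)).1 (hone (ho j)).1
  · intro j _
    have m0 : (hz j).val % 2 = 0 := by show (2 * j.val) % 2 = 0; omega
    have m1 : (ho j).val % 2 = 1 := by show (2 * j.val + 1) % 2 = 1; omega
    have d0 : (hz j).val / 2 = j.val := by show (2 * j.val) / 2 = j.val; omega
    have d1 : (ho j).val / 2 = j.val := by show (2 * j.val + 1) / 2 = j.val; omega
    obtain ⟨p1, p2, p3, x, hx0, hx, hxb⟩ := hone (hz j)
    obtain ⟨q1, q2, q3, y, hy0, hy, hyb⟩ := hone (ho j)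
    rw [m0, d0] at hx
    rw [m1, d1] at hy
    rw [d0] at hxb
    rw [d1] at hyb
    have n0 := hN (hz j)
    have n1 := hN (ho j)
    rw [d0, m0] at n0
    rw [d1, m1] at n1
    have hno : 2 * (k0 * 4 ^ e j.val) ≤ drop (T 0) M (e j.val) (μ (hz j)) (i (hz j)) +
        drop (T 1) M (e j.val) (μ (ho j)) (i (ho j)) := by
      by_contra hcon
      apply hF j
      refine ⟨n0, n1, ?_⟩
      rw [mul_assoc]
      omega
    have k3 := h1 _ _ x y _ _ (k0 * 4 ^ e j.val) p3 q3 hx0 hy0 hno hx hy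
    have hmin : 0 < min (gn T a G (hz j).val) (gn T a G (ho j).val) ^ (k0 * 4 ^ e j.val) :=
      pow_pos (lt_min (lt_of_lt_of_le one_pos p3) (lt_of_lt_of_le one_pos q3)) _
    refine le_trans (mul_le_mul hxb hyb q1 (mul_nonneg (pow_nonneg (by linarith) _)
      (mul_nonneg p2 hx0))) ?_
    have e5 : b ^ (4 ^ e j.val * (M + 3)) * (cost T n M e a L (hz j).val * x) *
        (b ^ (4 ^ e j.val * (M + 3)) * (cost T n M e a L (ho j).val * y)) =
        b ^ (2 * (4 ^ e j.val * (M + 3))) *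
          ((cost T n M e a L (hz j).val * cost T n M e a L (ho j).val) * (x * y)) := by
      rw [show 2 * (4 ^ e j.val * (M + 3)) = 4 ^ e j.val * (M + 3) + 4 ^ e j.val * (M + 3) from
        two_mul _, pow_add]
      ring
    rw [e5]
    apply mul_le_mul_of_nonneg_left _ (pow_nonneg (by linarith) _)
    show (cost T n M e a L (hz j).val * cost T n M e a L (ho j).val) * (x * y) ≤
      cost T n M e a L (hz j).val * cost T n M e a L (ho j).val /
        min (gn T a G (hz j).val) (gn T a G (ho j).val) ^ (k0 * 4 ^ e j.val)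
    rw [le_div_iff₀ hmin, mul_assoc]
    exact mul_le_of_le_one_right (mul_nonneg p2 q2) k3

end

end Pool.Agent.Helper22.SG2
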